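import Pool.Agent.H52.RC3

set_option autoImplicit false

namespace Pool.Agent.Results.MP_cf13c7_al.Definable

open Pool.Agent.H52.RC

universe u

theorem result : ∃ φ : Lg.Sentence, IsRadical.{u} (fun G _ => Models {φ} G) ∧
    (∃ (G : Type u) (_ : Group G), Models {φ} G ∧ ¬ LocFin G) ∧
    ∃ (G : Type u) (_ : Group G), ¬ Models {φ} G := main

end Pool.Agent.Results.MP_cf13c7_al.Definable
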